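import Pool.Agent.H36.Dual

/-!
Dual Separator for Two Terminals is W[1]-hard: a parameterized reduction from Clique.
-/

open Pool.Agent.H36.Par Pool.Agent.H36.Dual

theorem Pool.Agent.Results.MP_959b39_lc.TwoTerminals.result :
    PReduces Clique kOf Valid DualSep par :=
  main
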